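import Pool.Agent.W525.CB.Stm
import Pool.Agent.H187R3.Klt

set_option autoImplicit false

open AlgebraicGeometry CategoryTheory Order

namespace Pool.Agent.W359.CB.Klt

open Pool.Agent.H187R3 Pool.Agent.W525.CB

/-! ### Finiteness of the absolute differentials -/

lemma subsingleton_kaehler (A : Type) [CommRing A] (p : ℕ) (hp : (p : A) = 0)
    (h : ∀ a : A, ∃ b, b ^ p = a) : Subsingleton (Ω[A⁄ℤ]) := by
  have hD : ∀ a : A, KaehlerDifferential.D ℤ A a = 0 := by
    intro a
    obtain ⟨b, rfl⟩ := h a
    rw [Derivation.leibniz_pow, ← Nat.cast_smul_eq_nsmul A, hp, zero_smul]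
  have h1 : (⊤ : Submodule A (Ω[A⁄ℤ])) = ⊥ := by
    rw [← KaehlerDifferential.span_range_derivation ℤ A, Submodule.span_eq_bot]
    rintro _ ⟨a, rfl⟩
    exact hD a
  exact (Submodule.subsingleton_iff A).mp (subsingleton_of_bot_eq_top h1.symm)

lemma finite_kaehler (A R : Type) [CommRing A] [CommRing R] [Algebra A R]
    [Algebra.EssFiniteType A R] (hs : Subsingleton (Ω[A⁄ℤ])) : Module.Finite R (Ω[R⁄ℤ]) := by
  have hk : LinearMap.ker (KaehlerDifferential.map ℤ A R R) = ⊥ := by
    rw [← KaehlerDifferential.range_mapBaseChange, LinearMap.range_eq_bot]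
    refine LinearMap.ext fun x => ?_
    induction x using TensorProduct.induction_on with
    | zero => simp
    | tmul r y =>
      have : y = 0 := Subsingleton.elim _ _
      rw [this]
      simp
    | add x y hx hy => rw [map_add, hx, hy]; simp
  let e := LinearEquiv.ofBijective (KaehlerDifferential.map ℤ A R R)
    ⟨LinearMap.ker_eq_bot.mp hk, KaehlerDifferential.map_surjective ℤ A R⟩
  exact Module.Finite.equiv e.symm

section CommAlg

variable (R K : Type) [CommRing R] [Field K] [Algebra R K]

lemma diffLattice_fg' [Module.Finite R (Ω[R⁄ℤ])] : (diffLattice R K).FG := by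
  rw [diffLattice_eq_range, LinearMap.range_eq_map]
  exact (Module.Finite.fg_top (R := R) (M := Ω[R⁄ℤ])).map _

lemma exists_basis_diffLattice' [IsDomain R] [IsPrincipalIdealRing R] [IsFractionRing R K]
    [Module.Finite R (Ω[R⁄ℤ])] {ι : Type} [Finite ι] (b : Module.Basis ι K (Ω[K⁄ℤ])) :
    ∃ c : Module.Basis ι K (Ω[K⁄ℤ]),
      (Submodule.span R (Set.range c) : Submodule R (Ω[K⁄ℤ])) = diffLattice R K := by
  have hlat : Submodule.IsLattice K (diffLattice R K) :=
    ⟨diffLattice_fg' R K, diffLattice_span R K⟩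
  have htf : Module.IsTorsionFree R K := inferInstance
  have hfree : Module.Free R (diffLattice R K) := Submodule.IsLattice.free K _
  have hfin : Module.Finite R (diffLattice R K) := Submodule.IsLattice.finite K _
  let b' := Module.Free.chooseBasis R (diffLattice R K)
  let c' := b'.extendOfIsLattice K
  let e := c'.indexEquiv b
  refine ⟨c'.reindex e, ?_⟩
  rw [Module.Basis.range_reindex]
  have h1 : Set.range c' = (diffLattice R K).subtype '' Set.range b' := by
    rw [← Set.range_comp]
    congr 1
    funext i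
    simp [c', Module.Basis.extendOfIsLattice_apply]
  rw [h1, ← Submodule.map_span, b'.span_eq, Submodule.map_top, Submodule.range_subtype]

end CommAlg

theorem exists_isFormOrder' (W : Scheme.{0}) [IsIntegral W] [IsLocallyNoetherian W]
    (hW : IsNormalScheme W) (w : W) (hw : coheight w = 1)
    (hfin : Module.Finite (W.presheaf.stalk w) (Ω[W.presheaf.stalk w⁄ℤ]))
    {ι : Type} [Fintype ι] [DecidableEq ι] (t : ι → W.functionField)
    (b : Module.Basis ι W.functionField (Ω[W.functionField⁄ℤ]))
    (hb : ∀ i, b i = KaehlerDifferential.D ℤ W.functionField (t i)) :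
    ∃ n : ℤ, IsFormOrder W t w n := by
  have h1 : Ring.KrullDimLE 1 (W.presheaf.stalk w) := krullDimLE_of_coheight_le hw.le
  have h2 : IsIntegrallyClosed (W.presheaf.stalk w) := hW w
  have h4 : IsPrincipalIdealRing (W.presheaf.stalk w) := by
    have h5 := (tfae_of_isNoetherianRing_of_isLocalRing_of_isDomain
      (W.presheaf.stalk w)).out 3 0
    apply h5.mp
    exact ⟨h2, fun P hP hP' => IsLocalRing.eq_maximalIdeal
      (Ring.krullDimLE_one_iff_of_noZeroDivisors.mp h1 P hP hP')⟩
  obtain ⟨c, hc⟩ := exists_basis_diffLattice' (W.presheaf.stalk w) W.functionField b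
  refine ⟨_, c, hc, ?_, rfl⟩
  have h5 : (fun i => KaehlerDifferential.D ℤ W.functionField (t i)) = b := by
    funext i
    exact (hb i).symm
  rw [h5]
  exact (Module.Basis.isUnit_det c b).ne_zero

/-! ### The stalks of the spectrum of a field -/

lemma stalk_roots (k : Type) [Field k] [IsAlgClosed k] (p : ℕ) (hp : 0 < p) [CharP k p]
    (s : (Spec (CommRingCat.of k) : Scheme.{0})) :
    ((p : (Spec (CommRingCat.of k)).presheaf.stalk s) = 0) ∧
    ∀ a : (Spec (CommRingCat.of k)).presheaf.stalk s, ∃ b, b ^ p = a := by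
  let s' : PrimeSpectrum k := s
  have h0 : ∀ (A : Type) [CommRing A] [Algebra k A] [IsLocalization.AtPrime A s'.asIdeal],
      ((p : A) = 0) ∧ ∀ a : A, ∃ b, b ^ p = a := by
    intro A _ _ _
    constructor
    · rw [← map_natCast (algebraMap k A), CharP.cast_eq_zero, map_zero]
    · intro a
      obtain ⟨c, d, rfl⟩ := IsLocalization.exists_mk'_eq s'.asIdeal.primeCompl a
      obtain ⟨c', rfl⟩ := IsAlgClosed.exists_pow_nat_eq c hp
      obtain ⟨d', hd'⟩ := IsAlgClosed.exists_pow_nat_eq (d : k) hp
      have hd0 : d' ∈ s'.asIdeal.primeCompl := by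
        intro h
        exact d.2 (by rw [← hd']; exact Ideal.pow_mem_of_mem _ h _ hp)
      refine ⟨IsLocalization.mk' A c' ⟨d', hd0⟩, ?_⟩
      rw [← IsLocalization.mk'_pow]
      congr 1
      exact Subtype.ext hd'
  exact h0 ((AlgebraicGeometry.Spec.structureSheaf k).presheaf.stalk s')

lemma finite_stalk (k : Type) [Field k] [IsAlgClosed k] (p : ℕ) (hp : 0 < p) [CharP k p]
    (W : Scheme.{0}) (g : W ⟶ Spec (CommRingCat.of k)) [LocallyOfFiniteType g] (w : W) :
    Module.Finite (W.presheaf.stalk w) (Ω[W.presheaf.stalk w⁄ℤ]) := by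
  obtain ⟨h1, h2⟩ := stalk_roots k p hp (g w)
  have h3 := LocallyOfFiniteType.stalkMap g w
  algebraize [(g.stalkMap w).hom]
  exact finite_kaehler ((Spec (CommRingCat.of k)).presheaf.stalk (g w)) (W.presheaf.stalk w)
    (subsingleton_kaehler _ p h1 h2)

/-! ### Transport of differentials along a bijective homomorphism of fields -/

lemma exists_T (K L : Type) [Field K] [Field L] (φ : K →+* L) :
    ∃ T : Ω[K⁄ℤ] →+ Ω[L⁄ℤ], (∀ a, T (KaehlerDifferential.D ℤ K a) =
      KaehlerDifferential.D ℤ L (φ a)) ∧ ∀ (a : K) (x : Ω[K⁄ℤ]), T (a • x) = φ a • T x := by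
  letI : Algebra K L := φ.toAlgebra
  refine ⟨(KaehlerDifferential.map ℤ ℤ K L).toAddMonoidHom, fun a => ?_, fun a x => ?_⟩
  · exact KaehlerDifferential.map_D ℤ ℤ K L a
  · change KaehlerDifferential.map ℤ ℤ K L (a • x) = φ a • KaehlerDifferential.map ℤ ℤ K L x
    rw [map_smul, algebra_compatible_smul L a]
    rfl

lemma T_leftInverse {K L : Type} [Field K] [Field L] (φ : K →+* L) (ψ : L →+* K)
    (hψ : ∀ a, ψ (φ a) = a) (T : Ω[K⁄ℤ] →+ Ω[L⁄ℤ]) (S : Ω[L⁄ℤ] →+ Ω[K⁄ℤ])
    (hT : ∀ a, T (KaehlerDifferential.D ℤ K a) = KaehlerDifferential.D ℤ L (φ a))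
    (hT' : ∀ (a : K) (x : Ω[K⁄ℤ]), T (a • x) = φ a • T x)
    (hS : ∀ a, S (KaehlerDifferential.D ℤ L a) = KaehlerDifferential.D ℤ K (ψ a))
    (hS' : ∀ (a : L) (x : Ω[L⁄ℤ]), S (a • x) = ψ a • S x) (x : Ω[K⁄ℤ]) : S (T x) = x := by
  have hx : x ∈ Submodule.span K (Set.range (KaehlerDifferential.D ℤ K)) := by
    rw [KaehlerDifferential.span_range_derivation]; trivial
  induction hx using Submodule.span_induction with
  | mem x hx =>
    obtain ⟨a, rfl⟩ := hx
    rw [hT, hS, hψ]
  | zero => rw [map_zero, map_zero]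
  | add x y _ _ hx hy => rw [map_add, map_add, hx, hy]
  | smul a x _ hx => rw [hT', hS', hψ, hx]

lemma exists_transport {K L : Type} [Field K] [Field L] (φ : K →+* L)
    (hφ : Function.Bijective φ) : ∃ T : Ω[K⁄ℤ] →+ Ω[L⁄ℤ],
      (∀ a, T (KaehlerDifferential.D ℤ K a) = KaehlerDifferential.D ℤ L (φ a)) ∧
      (∀ (a : K) (x : Ω[K⁄ℤ]), T (a • x) = φ a • T x) ∧
      ∀ (ι : Type) [Fintype ι] (c : Module.Basis ι K (Ω[K⁄ℤ])),
        ∃ C : Module.Basis ι L (Ω[L⁄ℤ]), ∀ i, C i = T (c i) := by
  let e : K ≃+* L := RingEquiv.ofBijective φ hφ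
  have he : ∀ a, e.symm (φ a) = a := fun a => e.symm_apply_apply a
  have he' : ∀ a, φ (e.symm a) = a := fun a => e.apply_symm_apply a
  obtain ⟨T, hT, hT'⟩ := exists_T K L φ
  obtain ⟨S, hS, hS'⟩ := exists_T L K e.symm.toRingHom
  have hST : ∀ x, S (T x) = x := T_leftInverse φ e.symm.toRingHom he T S hT hT' hS hS'
  have hTS : ∀ x, T (S x) = x := T_leftInverse e.symm.toRingHom φ he' S T hS hS' hT hT'
  refine ⟨T, hT, hT', fun ι _ c => ?_⟩
  have hli : LinearIndependent L (fun i => T (c i)) := by
    rw [Fintype.linearIndependent_iff]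
    intro g hg i
    have h1 : ∑ i, e.symm (g i) • c i = 0 := by
      have h2 := congrArg S hg
      rw [map_zero, map_sum] at h2
      rw [← h2]
      refine Finset.sum_congr rfl fun i _ => ?_
      rw [hS', hST]
      rfl
    have h3 := (Fintype.linearIndependent_iff.mp c.linearIndependent) _ h1 i
    rwa [map_eq_zero_iff _ e.symm.injective] at h3
  have hsp : ⊤ ≤ Submodule.span L (Set.range fun i => T (c i)) := by
    intro x _
    have h1 : x = ∑ i, φ (c.repr (S x) i) • T (c i) := by
      conv_lhs => rw [← hTS x, ← c.sum_repr (S x)]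
      rw [map_sum]
      exact Finset.sum_congr rfl fun i _ => hT' _ _
    rw [h1]
    exact Submodule.sum_mem _ fun i _ => Submodule.smul_mem _ _ (Submodule.subset_span ⟨i, rfl⟩)
  exact ⟨Module.Basis.mk hli hsp, fun i => Module.Basis.mk_apply hli hsp i⟩

lemma det_transport {K L ι : Type} [Field K] [Field L] [Fintype ι] [DecidableEq ι] (φ : K →+* L)
    (T : Ω[K⁄ℤ] →+ Ω[L⁄ℤ]) (hT' : ∀ (a : K) (x : Ω[K⁄ℤ]), T (a • x) = φ a • T x)
    (c : Module.Basis ι K (Ω[K⁄ℤ])) (C : Module.Basis ι L (Ω[L⁄ℤ])) (hC : ∀ i, C i = T (c i))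
    (f : ι → Ω[K⁄ℤ]) : C.det (fun i => T (f i)) = φ (c.det f) := by
  rw [Module.Basis.det_apply, Module.Basis.det_apply, RingHom.map_det]
  congr 1
  ext i j
  rw [Module.Basis.toMatrix_apply, RingHom.mapMatrix_apply, Matrix.map_apply,
    Module.Basis.toMatrix_apply]
  have h1 : T (f j) = ∑ i, φ (c.repr (f j) i) • C i := by
    conv_lhs => rw [← c.sum_repr (f j)]
    rw [map_sum]
    exact Finset.sum_congr rfl fun i _ => by rw [hT', hC]
  rw [h1, C.repr_sum_self]

/-! ### Lattices at two points -/

section Two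

variable {X : Scheme.{0}} [IsIntegral X] {y z : X}

lemma algebraMap_spec (h : y ⤳ z) (a : X.presheaf.stalk z) :
    algebraMap (X.presheaf.stalk y) X.functionField ((X.presheaf.stalkSpecializes h).hom a) =
      algebraMap (X.presheaf.stalk z) X.functionField a := by
  have h2 := TopCat.Presheaf.stalkSpecializes_comp (X := X) X.presheaf
    ((genericPoint_spec X).specializes (y := y) trivial) h
  exact congrArg (fun g => g.hom a) h2

lemma exists_frac (h : y ⤳ z) (a : X.presheaf.stalk y) :
    ∃ (u s : X.presheaf.stalk z) (s' : X.presheaf.stalk y),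
      algebraMap (X.presheaf.stalk z) X.functionField s *
        algebraMap (X.presheaf.stalk y) X.functionField s' = 1 ∧
      algebraMap (X.presheaf.stalk y) X.functionField a =
        algebraMap (X.presheaf.stalk z) X.functionField u /
          algebraMap (X.presheaf.stalk z) X.functionField s := by
  obtain ⟨U, hU, hzU, -⟩ := exists_isAffineOpen_mem_and_subset (X := X) (x := z) (U := ⊤) trivial
  have hyU : y ∈ U := h.mem_open U.isOpen hzU
  letI := X.presheaf.algebra_section_stalk ⟨y, hyU⟩
  have hloc := hU.isLocalization_stalk ⟨y, hyU⟩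
  obtain ⟨u, s, rfl⟩ := IsLocalization.exists_mk'_eq (hU.primeIdealOf ⟨y, hyU⟩).asIdeal.primeCompl a
  have hunit : IsUnit (X.presheaf.germ U y hyU s.1) :=
    IsLocalization.map_units (X.presheaf.stalk y) s
  obtain ⟨v, hv⟩ := hunit
  have hg : ∀ r : Γ(X, U), algebraMap (X.presheaf.stalk z) X.functionField
      (X.presheaf.germ U z hzU r) = algebraMap (X.presheaf.stalk y) X.functionField
      (X.presheaf.germ U y hyU r) := by
    intro r
    rw [← algebraMap_spec h]
    congr 1
    have h3 := TopCat.Presheaf.germ_stalkSpecializes (X := X) X.presheaf hzU h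
    exact congrArg (fun g => g.hom r) h3
  have h4 : algebraMap (X.presheaf.stalk z) X.functionField (X.presheaf.germ U z hzU s.1) *
      algebraMap (X.presheaf.stalk y) X.functionField ((v⁻¹ : (X.presheaf.stalk y)ˣ) : _) = 1 := by
    rw [hg, ← hv, ← map_mul, Units.mul_inv, map_one]
  refine ⟨X.presheaf.germ U z hzU u, X.presheaf.germ U z hzU s.1,
    ((v⁻¹ : (X.presheaf.stalk y)ˣ) : X.presheaf.stalk y), h4, ?_⟩
  rw [eq_div_iff (left_ne_zero_of_mul_eq_one h4), hg, hg, ← map_mul]
  congr 1
  exact IsLocalization.mk'_spec (X.presheaf.stalk y) u s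

lemma diffLattice_le (h : y ⤳ z) {v : Ω[X.functionField⁄ℤ]}
    (hv : v ∈ diffLattice (X.presheaf.stalk z) X.functionField) :
    v ∈ diffLattice (X.presheaf.stalk y) X.functionField := by
  unfold diffLattice at hv
  induction hv using Submodule.span_induction with
  | mem x hx =>
    obtain ⟨a, rfl⟩ := hx
    change KaehlerDifferential.D ℤ X.functionField (algebraMap _ _ a) ∈ _
    rw [← algebraMap_spec h]
    exact Submodule.subset_span ⟨_, rfl⟩
  | zero => exact Submodule.zero_mem _
  | add x y _ _ hx hy => exact Submodule.add_mem _ hx hy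
  | smul a x _ hx =>
    rw [← algebraMap_smul X.functionField a x, ← algebraMap_spec h, algebraMap_smul]
    exact Submodule.smul_mem _ _ hx

lemma mem_span_of_mem {ι : Type} (h : y ⤳ z) (c : Module.Basis ι X.functionField
      (Ω[X.functionField⁄ℤ]))
    (hc : (Submodule.span (X.presheaf.stalk z) (Set.range c) :
      Submodule (X.presheaf.stalk z) _) = diffLattice (X.presheaf.stalk z) X.functionField)
    {v : Ω[X.functionField⁄ℤ]}
    (hv : v ∈ diffLattice (X.presheaf.stalk y) X.functionField) :
    v ∈ (Submodule.span (X.presheaf.stalk y) (Set.range c) :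
      Submodule (X.presheaf.stalk y) _) := by
  have h1 : ∀ v, v ∈ (Submodule.span (X.presheaf.stalk z) (Set.range c) :
      Submodule (X.presheaf.stalk z) _) → v ∈ (Submodule.span (X.presheaf.stalk y) (Set.range c) :
      Submodule (X.presheaf.stalk y) _) := by
    intro v hv
    induction hv using Submodule.span_induction with
    | mem x hx => exact Submodule.subset_span hx
    | zero => exact Submodule.zero_mem _
    | add x y _ _ hx hy => exact Submodule.add_mem _ hx hy
    | smul a x _ hx =>
      rw [← algebraMap_smul X.functionField a x, ← algebraMap_spec h, algebraMap_smul]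
      exact Submodule.smul_mem _ _ hx
  have h2 : ∀ a : X.presheaf.stalk z, KaehlerDifferential.D ℤ X.functionField
      (algebraMap _ _ a) ∈ (Submodule.span (X.presheaf.stalk y) (Set.range c) :
      Submodule (X.presheaf.stalk y) _) := by
    intro a
    apply h1
    rw [hc]
    exact Submodule.subset_span ⟨a, rfl⟩
  unfold diffLattice at hv
  induction hv using Submodule.span_induction with
  | mem x hx =>
    obtain ⟨a, rfl⟩ := hx
    change KaehlerDifferential.D ℤ X.functionField (algebraMap _ _ a) ∈ _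
    obtain ⟨u, s, s', hs, ha⟩ := exists_frac h a
    rw [ha, Derivation.leibniz_div]
    have h5 : (algebraMap (X.presheaf.stalk z) X.functionField s)⁻¹ =
        algebraMap (X.presheaf.stalk y) X.functionField s' :=
      inv_eq_of_mul_eq_one_right hs
    rw [h5, ← map_pow, algebraMap_smul]
    apply Submodule.smul_mem
    rw [← algebraMap_spec h s, ← algebraMap_spec h u, algebraMap_smul, algebraMap_smul,
      algebraMap_spec h s, algebraMap_spec h u]
    exact Submodule.sub_mem _ (Submodule.smul_mem _ _ (h2 u)) (Submodule.smul_mem _ _ (h2 s))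
  | zero => exact Submodule.zero_mem _
  | add x y _ _ hx hy => exact Submodule.add_mem _ hx hy
  | smul a x _ hx => exact Submodule.smul_mem _ _ hx

end Two

lemma det_mul_det {K V ι : Type} [Field K] [AddCommGroup V] [Module K V] [Fintype ι]
    [DecidableEq ι] (c c' : Module.Basis ι K V) (f : ι → V) :
    c.det f = c.det c' * c'.det f := by
  rw [Module.Basis.det_apply, Module.Basis.det_apply, Module.Basis.det_apply, ← Matrix.det_mul,
    Module.Basis.toMatrix_mul_toMatrix]

lemma ord_det_eq {X : Scheme.{0}} [IsIntegral X] [IsLocallyNoetherian X] {ι : Type} [Fintype ι]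
    [DecidableEq ι] {y z : X} (h : y ⤳ z)
    (c c' : Module.Basis ι X.functionField (Ω[X.functionField⁄ℤ]))
    (hc : (Submodule.span (X.presheaf.stalk z) (Set.range c) :
      Submodule (X.presheaf.stalk z) _) = diffLattice (X.presheaf.stalk z) X.functionField)
    (hc' : (Submodule.span (X.presheaf.stalk y) (Set.range c') :
      Submodule (X.presheaf.stalk y) _) = diffLattice (X.presheaf.stalk y) X.functionField)
    (b : Module.Basis ι X.functionField (Ω[X.functionField⁄ℤ])) :
    Scheme.ord (c.det b) y = Scheme.ord (c'.det b) y := by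
  have hu : c'.det c ∈ (algebraMap (X.presheaf.stalk y) X.functionField).range := by
    apply det_mem_range
    intro i
    rw [hc']
    apply diffLattice_le h
    rw [← hc]
    exact Submodule.subset_span ⟨i, rfl⟩
  have hu' : c.det c' ∈ (algebraMap (X.presheaf.stalk y) X.functionField).range := by
    apply det_mem_range
    intro i
    apply mem_span_of_mem h c hc
    rw [← hc']
    exact Submodule.subset_span ⟨i, rfl⟩
  have h1 : c.det c' * c'.det c = 1 := by
    rw [← det_mul_det, Module.Basis.det_self]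
  have hn1 : c.det c' ≠ 0 := left_ne_zero_of_mul_eq_one h1
  have hn2 : c'.det c ≠ 0 := right_ne_zero_of_mul_eq_one h1
  have hb : c'.det b ≠ 0 := (Module.Basis.isUnit_det c' b).ne_zero
  have h2 : Scheme.ord (c.det c' * c'.det c) y = Scheme.ord (c.det c') y + Scheme.ord (c'.det c) y :=
    Scheme.ord_mul hn1 hn2
  have h3 : Scheme.ord (1 : X.functionField) y = 0 := by
    have h4 : Scheme.ord ((1 : X.functionField) * 1) y = _ := Scheme.ord_mul one_ne_zero one_ne_zero
    rw [mul_one] at h4
    omega
  rw [h1, h3] at h2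
  obtain ⟨r, hr⟩ := hu
  obtain ⟨r', hr'⟩ := hu'
  have h5 := ord_nonneg y r (by rw [hr]; exact hn2)
  have h6 := ord_nonneg y r' (by rw [hr']; exact hn1)
  rw [hr] at h5
  rw [hr'] at h6
  rw [det_mul_det c c' b, Scheme.ord_mul hn1 hb]
  omega

theorem main : S_KLT := by
  intro k _ _ p _ _ X _ _ f _ hX ι _ _ t b hb hlat
  choose c hc using hlat
  have hbt : (fun i => KaehlerDifferential.D ℤ X.functionField (t i)) = b := by
    funext i
    exact (hb i).symm
  have hne : ∀ x, (c x).det b ≠ 0 := fun x => (Module.Basis.isUnit_det (c x) b).ne_zero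
  have hloceq : ∀ z, IsLocalEquation X (fun y => ((1 : ℕ) : ℤ) * Scheme.ord ((c y).det b) y) z
      ((c z).det b) := by
    intro z
    refine ⟨hne z, fun y _ hyz => ?_⟩
    simp only [Nat.cast_one, one_mul]
    exact ord_det_eq hyz (c z) (c y) (hc z) (hc y) b
  refine ⟨hX, ι, inferInstance, inferInstance, t, fun x => Scheme.ord ((c x).det b) x, 1,
    fun x _ => ⟨c x, hc x, ?_, ?_⟩, Nat.one_pos, fun z => ⟨_, hloceq z⟩, ?_⟩
  · rw [hbt]; exact hne x
  · rw [hbt]
  · intro W _ _ g _ _ hg hnorm w hw
    refine ⟨(c (g w)).det b, hloceq (g w), ?_⟩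
    obtain ⟨T, hT, hT', hbas⟩ := exists_transport (functionFieldMap g) hg
    obtain ⟨B, hB⟩ := hbas ι b
    obtain ⟨C, hC⟩ := hbas ι (c (g w))
    have hfin := finite_stalk k p (Fact.out (p := p.Prime)).pos W (g ≫ f) w
    have hB' : ∀ i, B i = KaehlerDifferential.D ℤ W.functionField (functionFieldMap g (t i)) := by
      intro i
      rw [hB, hb, hT]
    obtain ⟨n, hn⟩ := exists_isFormOrder' W hnorm w hw hfin (fun i => functionFieldMap g (t i)) B hB'
    refine ⟨n, hn, ?_⟩
    obtain ⟨cw, hspan, hne', hord⟩ := hn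
    have hBB : (fun i => KaehlerDifferential.D ℤ W.functionField (functionFieldMap g (t i))) = B := by
      funext i
      exact (hB' i).symm
    rw [hBB] at hne' hord
    have hdet : cw.det B = cw.det C * functionFieldMap g ((c (g w)).det b) := by
      rw [det_mul_det cw C B]
      congr 1
      rw [← det_transport (functionFieldMap g) T hT' (c (g w)) C hC b]
      congr 1
      funext i
      exact hB i
    have hCne : cw.det C ≠ 0 := (Module.Basis.isUnit_det cw C).ne_zero
    have hyne : functionFieldMap g ((c (g w)).det b) ≠ 0 := by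
      rw [map_ne_zero_iff _ hg.1]; exact hne _
    rw [hdet, Scheme.ord_mul hCne hyne] at hord
    have hlatT : ∀ v ∈ diffLattice (X.presheaf.stalk (g w)) X.functionField,
        T v ∈ diffLattice (W.presheaf.stalk w) W.functionField := by
      intro v hv
      unfold diffLattice at hv
      induction hv using Submodule.span_induction with
      | mem x hx =>
        obtain ⟨a, rfl⟩ := hx
        change T (KaehlerDifferential.D ℤ X.functionField (algebraMap _ _ a)) ∈ _
        rw [hT, functionFieldMap_algebraMap]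
        exact Submodule.subset_span ⟨_, rfl⟩
      | zero => rw [map_zero]; exact Submodule.zero_mem _
      | add x y _ _ hx hy => rw [map_add]; exact Submodule.add_mem _ hx hy
      | smul a x _ hx =>
        rw [← algebraMap_smul X.functionField a x, hT', functionFieldMap_algebraMap,
          algebraMap_smul]
        exact Submodule.smul_mem _ _ hx
    have hmemR : cw.det C ∈ (algebraMap (W.presheaf.stalk w) W.functionField).range := by
      apply det_mem_range
      intro v
      rw [hspan, hC]
      apply hlatT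
      rw [← hc]
      exact Submodule.subset_span ⟨v, rfl⟩
    obtain ⟨r, hr⟩ := hmemR
    have hpos := ord_nonneg w r (by rw [hr]; exact hCne)
    rw [hr] at hpos
    have hn' : (Scheme.ord (functionFieldMap g ((c (g w)).det b)) w : ℚ) ≤ n := by
      have : Scheme.ord (functionFieldMap g ((c (g w)).det b)) w ≤ n := by omega
      exact_mod_cast this
    simp only [Nat.cast_one, div_one]
    linarith

end Pool.Agent.W359.CB.Klt
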